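import Mathlib

namespace Pool.Agent.Results.MP_2c0ed3_al.ShiftEngel

open Polynomial

section
variable (F : Type) [Field F] (A : Type) [LieRing A] [LieAlgebra F A]

/-- right multiplication `x ↦ ⁅x, a⁆` -/
def rmul (a : A) : Module.End F A where
  toFun x := ⁅x, a⁆
  map_add' x y := add_lie x y a
  map_smul' c x := smul_lie c x a

/-- the Engel condition -/
def IsEngel : Prop := ∀ x y : A, ∃ n : ℕ, 1 ≤ n ∧ (rmul F A x ^ n) y = 0

/-- the multiplication algebra -/
def mult : NonUnitalSubalgebra F (Module.End F A) :=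
  NonUnitalAlgebra.adjoin F (Set.range (rmul F A))

/-- the sum of the locally nilpotent ideals of `A` -/
def lieRad : LieIdeal F A :=
  sSup {I | ∀ s : Finset A, (s : Set A) ⊆ I →
    LieRing.IsNilpotent (LieSubalgebra.lieSpan F A (s : Set A))}

/-- the sum of the locally nilpotent ideals of the multiplication algebra -/
def multRad : Submodule F (Module.End F A) :=
  sSup {J | (∀ v ∈ J, v ∈ mult F A) ∧ (∀ u ∈ mult F A, ∀ v ∈ J, u * v ∈ J ∧ v * u ∈ J) ∧
    ∀ s : Finset (Module.End F A), (s : Set (Module.End F A)) ⊆ J → ∃ n : ℕ, 1 ≤ n ∧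
      ∀ l : List (Module.End F A), l.length = n →
        (∀ v ∈ l, v ∈ NonUnitalAlgebra.adjoin F (s : Set (Module.End F A))) → l.prod = 0}

end

variable {F : Type} [Field F]

/-- the backward shift -/
noncomputable def sh : Module.End F F[X] where
  toFun := divX
  map_add' _ _ := divX_add
  map_smul' c p := by ext n; simp [coeff_divX]

theorem sh_pow (j : ℕ) (f : F[X]) (n : ℕ) : ((sh ^ j) f).coeff n = f.coeff (n + j) := by
  induction j generalizing n with
  | zero => rfl
  | succ j ih =>
    rw [pow_succ', Module.End.mul_apply]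
    exact coeff_divX.trans (by rw [ih]; congr 1; omega)

theorem aeval_sh (p : F[X]) (N : ℕ) : (aeval sh p (X ^ N : F[X])).coeff 0 = p.coeff N := by
  induction p using Polynomial.induction_on' with
  | add p q hp hq => simp [hp, hq]
  | monomial j c =>
    rw [aeval_monomial, Module.End.mul_apply, Module.algebraMap_end_apply, coeff_smul, sh_pow,
      coeff_X_pow, coeff_monomial]
    simp

/-- the example -/
def E (F : Type) [Field F] : Type := F × F[X]

noncomputable instance : AddCommGroup (E F) := inferInstanceAs (AddCommGroup (F × F[X]))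
noncomputable instance : Module F (E F) := inferInstanceAs (Module F (F × F[X]))

noncomputable def br (x y : F × F[X]) : F × F[X] := (0, y.1 • sh x.2 - x.1 • sh y.2)

noncomputable instance : LieRing (E F) where
  bracket := br
  add_lie (x y z : F × F[X]) := show br (x + y) z = br x z + br y z by
    simp only [br, Prod.fst_add, Prod.snd_add, map_add, Prod.mk_add_mk, add_zero]; congr 1; module
  lie_add (x y z : F × F[X]) := show br x (y + z) = br x y + br x z by
    simp only [br, Prod.fst_add, Prod.snd_add, map_add, Prod.mk_add_mk, add_zero]; congr 1; module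
  lie_self (x : F × F[X]) := show br x x = 0 by simp [br]
  leibniz_lie (x y z : F × F[X]) := show br x (br y z) = br (br x y) z + br y (br x z) by
    simp only [br, map_sub, map_smul, Prod.mk_add_mk, add_zero]; congr 1; module

noncomputable instance : LieAlgebra F (E F) where
  lie_smul c (x y : F × F[X]) := show br x (c • y) = c • br x y by
    simp only [br, Prod.smul_fst, Prod.smul_snd, map_smul, Prod.smul_mk, smul_eq_mul, mul_zero]
    congr 1; module

theorem rmul_pow (x : F × F[X]) (f : F[X]) (n : ℕ) :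
    (rmul F (E F) x ^ n) ((0, f) : F × F[X]) = ((0, x.1 ^ n • (sh ^ n) f) : F × F[X]) := by
  induction n with
  | zero => simp
  | succ n ih =>
    rw [pow_succ', Module.End.mul_apply, ih]
    show br _ _ = _
    simp [br, pow_succ', mul_smul]

theorem engel : IsEngel F (E F) := by
  intro (x : F × F[X]) (y : F × F[X])
  refine ⟨(br y x).2.natDegree + 1 + 1, by omega, ?_⟩
  rw [pow_succ, Module.End.mul_apply]
  refine (rmul_pow x (br y x).2 _).trans ?_
  have : (sh ^ ((br y x).2.natDegree + 1)) (br y x).2 = 0 := by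
    ext n; rw [sh_pow, coeff_eq_zero_of_natDegree_lt (by omega), coeff_zero]
  rw [this, smul_zero]; rfl

theorem locNil (s : Finset (E F)) : LieRing.IsNilpotent (LieSubalgebra.lieSpan F (E F) (s : Set (E F))) := by
  obtain ⟨N, hN⟩ : ∃ N : ℕ, ∀ x ∈ s, (x : F × F[X]).2.natDegree < N :=
    ⟨s.sup (fun x : F × F[X] => x.2.natDegree) + 1, fun x hx =>
      Nat.lt_succ_of_le (Finset.le_sup (f := fun x : F × F[X] => x.2.natDegree) hx)⟩
  let M : Submodule F (F × F[X]) := (⊤ : Submodule F F).prod (degreeLT F N)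
  have hs : ∀ f ∈ degreeLT F N, sh f ∈ degreeLT F N := fun f hf => by
    rw [mem_degreeLT, degree_lt_iff_coeff_zero] at hf ⊢
    exact fun m hm => coeff_divX.trans (hf _ (by omega))
  let K : LieSubalgebra F (E F) := ⟨M, fun {x y} hx hy =>
    ⟨trivial, sub_mem (Submodule.smul_mem _ _ (hs _ hx.2)) (Submodule.smul_mem _ _ (hs _ hy.2))⟩⟩
  have le : LieSubalgebra.lieSpan F (E F) (s : Set (E F)) ≤ K :=
    LieSubalgebra.lieSpan_le.2 fun x hx => ⟨trivial, mem_degreeLT.2
      (degree_le_natDegree.trans_lt (by exact_mod_cast hN x hx))⟩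
  have : Module.Finite F M := Module.Finite.of_fg
    ((Module.Finite.fg_top).prod (Module.Finite.iff_fg.1 inferInstance))
  have : Module.Finite F (LieSubalgebra.lieSpan F (E F) (s : Set (E F))) :=
    Module.Finite.of_injective (Submodule.inclusion (p' := M) le) (Submodule.inclusion_injective _)
  rw [LieAlgebra.isNilpotent_iff_forall (R := F)]
  intro x
  rw [Module.End.isNilpotent_iff_of_finite]
  intro y
  obtain ⟨n, -, h⟩ := engel x.1 y.1
  refine ⟨n, Subtype.ext ?_⟩
  have : ∀ n : ℕ, ((LieAlgebra.ad F _ x ^ n) y).1 = (-1 : F) ^ n • (rmul F (E F) x.1 ^ n) y.1 := by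
    intro n
    induction n with
    | zero => simp
    | succ n ih =>
      rw [pow_succ', Module.End.mul_apply, LieAlgebra.ad_apply, LieSubalgebra.coe_bracket, ih,
        pow_succ' (rmul F (E F) x.1), Module.End.mul_apply, lie_smul, ← lie_skew, pow_succ,
        mul_neg_one, neg_smul, smul_neg]
      rfl
  rw [this, h, smul_zero]; rfl

theorem res (T : Module.End F (E F)) (hT : T ∈ mult F (E F)) : ∃ p : F[X], ∀ f : F[X],
    T ((0, f) : F × F[X]) = ((0, aeval sh p f) : F × F[X]) := by
  induction hT using NonUnitalAlgebra.adjoin_induction with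
  | mem T h =>
    obtain ⟨x : F × F[X], rfl⟩ := h
    exact ⟨C x.1 * X, fun f => show br _ _ = _ by simp [br]⟩
  | zero => exact ⟨0, fun f => by simp; rfl⟩
  | add T U _ _ h1 h2 =>
    obtain ⟨p, h1⟩ := h1
    obtain ⟨q, h2⟩ := h2
    refine ⟨p + q, fun f => ?_⟩
    rw [LinearMap.add_apply, h1, h2, map_add]
    exact Prod.ext (add_zero _) rfl
  | mul T U _ _ h1 h2 =>
    obtain ⟨p, h1⟩ := h1
    obtain ⟨q, h2⟩ := h2
    exact ⟨p * q, fun f => by rw [Module.End.mul_apply, h2, h1, map_mul]; rfl⟩
  | smul c T _ h1 =>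
    obtain ⟨p, h1⟩ := h1
    refine ⟨c • p, fun f => ?_⟩
    rw [LinearMap.smul_apply, h1, map_smul]
    exact Prod.ext (smul_zero _) rfl

theorem result : ∀ (F : Type) [Field F], ¬ ∀ (A : Type) [LieRing A] [LieAlgebra F A],
    IsEngel F A → ∀ a : A, a ∈ lieRad F A ↔ rmul F A a ∈ multRad F A := by
  intro F _ h
  have h1 := (h (E F) engel ((1, 0) : F × F[X])).1
    ((le_sSup (fun s _ => locNil s) : (⊤ : LieIdeal F (E F)) ≤ lieRad F (E F)) trivial)
  have h2 : multRad F (E F) ≤ LinearMap.ker (LinearMap.applyₗ (((0, X) : F × F[X]) : E F)) := by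
    refine sSup_le fun J ⟨j1, _, j2⟩ T hT => ?_
    obtain ⟨p, hp⟩ := res T (j1 T hT)
    obtain ⟨n, -, hn⟩ := j2 {T} (by simpa using hT)
    have e := hn (List.replicate n T) (by simp) fun v hv => by
      rw [List.eq_of_mem_replicate hv]; exact NonUnitalAlgebra.subset_adjoin F (by simp)
    rw [List.prod_replicate] at e
    have e2 : ∀ (n : ℕ) (f : F[X]), (T ^ n) ((0, f) : F × F[X]) =
        ((0, aeval sh (p ^ n) f) : F × F[X]) := by
      intro n f
      induction n with
      | zero => simp
      | succ n ih => rw [pow_succ', Module.End.mul_apply, ih, hp, pow_succ', map_mul]; rfl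
    have e3 : p ^ n = 0 := by
      ext N
      have := congrArg Prod.snd (e2 n (X ^ N))
      rw [← aeval_sh, ← show _ = aeval sh (p ^ n) (X ^ N) from this, e]
      rfl
    show T _ = 0
    rw [hp, eq_zero_of_pow_eq_zero e3]
    simp; rfl
  have h3 : (br (0, X) (1, 0) : F × F[X]).2.coeff 0 = 0 := by
    rw [show (br (0, X) (1, 0) : F × F[X]) = 0 from h2 h1]; rfl
  simp [br, sh, coeff_divX] at h3

end Pool.Agent.Results.MP_2c0ed3_al.ShiftEngel
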